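import Mathlib

set_option autoImplicit false

namespace Pool.Agent.Results.MP_a75ade_an.Counter

open MvPolynomial Filter Topology

/-- The exponent of the monomial `z₁^j z₂^k`. -/
noncomputable def ex (p : ℕ × ℕ) : Fin 2 →₀ ℕ := Finsupp.single 0 p.1 + Finsupp.single 1 p.2

/-- Interpolation sets for type `(n, ν)`. -/
def InterpSet (n ν : ℕ) (S : Finset (ℕ × ℕ)) : Prop :=
  S.card = (n + 1) * (n + 2) / 2 + (ν + 1) * (ν + 2) / 2 - 1 ∧
  (∀ j k : ℕ, j + k ≤ n → (j, k) ∈ S) ∧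
  ∀ j k l m : ℕ, (j, k) ∈ S → l ≤ j → m ≤ k → (l, m) ∈ S

/-- `P / Q` is a rational approximant of type `(n, ν)` to the power series `f` for the set `S`. -/
def Approx (n ν : ℕ) (f : MvPowerSeries (Fin 2) ℂ) (S : Finset (ℕ × ℕ))
    (P Q : MvPolynomial (Fin 2) ℂ) : Prop :=
  Q ≠ 0 ∧ P.totalDegree ≤ n ∧ Q.totalDegree ≤ ν ∧
  ∀ p ∈ S, MvPowerSeries.coeff (ex p) 
    ((Q : MvPowerSeries (Fin 2) ℂ) * f - (P : MvPowerSeries (Fin 2) ℂ)) = 0

/-- The denominator `G = 1 - z₁ z₂`. -/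
noncomputable def G : MvPolynomial (Fin 2) ℂ := 1 - X 0 * X 1

lemma tri (n : ℕ) : ((Finset.range (n + 1)).biUnion Finset.HasAntidiagonal.antidiagonal).card * 2
    = (n + 1) * (n + 2) := by
  rw [Finset.card_biUnion]
  · simp only [Finset.Nat.card_antidiagonal]
    induction n with
    | zero => simp
    | succ n ih => rw [Finset.sum_range_succ, add_mul, ih]; ring
  · intro a _ b _ h
    refine Finset.disjoint_left.2 fun x ha hb => h ?_
    rw [Finset.HasAntidiagonal.mem_antidiagonal] at ha hb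
    omega

lemma miss (m : ℕ) (S : Finset (ℕ × ℕ)) (h : InterpSet (2 * m + 2) 2 S) :
    (m + 3, m + 1) ∉ S ∨ (m + 1, m + 3) ∉ S := by
  by_contra c
  push Not at c
  obtain ⟨h1, h2, h3⟩ := h
  have t := tri (2 * m + 2)
  set T := (Finset.range (2 * m + 2 + 1)).biUnion (Finset.HasAntidiagonal.antidiagonal (A := ℕ))
  have mT : ∀ x ∈ T, x.1 + x.2 ≤ 2 * m + 2 := fun x hx => by
    simp only [T, Finset.mem_biUnion, Finset.mem_range, Finset.HasAntidiagonal.mem_antidiagonal] at hx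
    omega
  let U : Finset (ℕ × ℕ) := {(m + 3, m + 1), (m + 3, m), (m + 2, m + 1), (m + 1, m + 3), (m, m + 3),
    (m + 1, m + 2)}
  have cU : U.card = 6 := by
    simp only [U]
    repeat rw [Finset.card_insert_of_notMem (by simp; try omega)]
    rfl
  have d : Disjoint T U := Finset.disjoint_left.2 fun x hx hu => by
    have := mT x hx
    simp only [U, Finset.mem_insert, Finset.mem_singleton] at hu
    rcases hu with rfl | rfl | rfl | rfl | rfl | rfl <;> omega
  have s : T ∪ U ⊆ S := Finset.union_subset (fun x hx => h2 _ _ (mT x hx)) fun x hu => by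
    simp only [U, Finset.mem_insert, Finset.mem_singleton] at hu
    rcases hu with rfl | rfl | rfl | rfl | rfl | rfl
    exacts [c.1, h3 _ _ _ _ c.1 le_rfl (by omega), h3 _ _ _ _ c.1 (by omega) le_rfl, c.2,
      h3 _ _ _ _ c.2 (by omega) le_rfl, h3 _ _ _ _ c.2 le_rfl (by omega)]
  have := Finset.card_le_card s
  rw [Finset.card_union_of_disjoint d, h1, ← t] at this
  omega

lemma Ginv : (G : MvPowerSeries (Fin 2) ℂ) * (G : MvPowerSeries (Fin 2) ℂ)⁻¹ = 1 :=
  MvPowerSeries.mul_inv_cancel _ (by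
    rw [← MvPowerSeries.coeff_zero_eq_constantCoeff_apply, coeff_coe, ← constantCoeff_eq]
    simp [G])

lemma degG : G.totalDegree = 2 := by
  have : G = -(X 0 * X 1) + 1 := by rw [G]; ring
  rw [this, totalDegree_add_eq_left_of_totalDegree_lt] <;>
  simp [totalDegree_neg, totalDegree_mul_of_isDomain]

lemma bad (m : ℕ) (S : Finset (ℕ × ℕ)) (i : Fin 2) (e : ℕ × ℕ) (he : e ∉ S)
    (low : ∀ j k l m : ℕ, (j, k) ∈ S → l ≤ j → m ≤ k → (l, m) ∈ S)
    (hi : (X i ^ 2 * (X 0 * X 1) ^ (m + 1) : MvPolynomial (Fin 2) ℂ) = monomial (ex e) 1) :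
    Approx (2 * m + 2) 2 (G : MvPowerSeries (Fin 2) ℂ)⁻¹ S
      (1 + X i ^ 2 * ∑ l ∈ Finset.range (m + 1), (X 0 * X 1) ^ l) (G + X i ^ 2) := by
  refine ⟨fun c => ?_, ?_, ?_, fun p hp => ?_⟩
  · simpa [G] using congrArg (eval 0) c
  · refine (totalDegree_add _ _).trans (max_le (by simp) ((totalDegree_mul _ _).trans ?_))
    have : (∑ l ∈ Finset.range (m + 1), (X 0 * X 1) ^ l : MvPolynomial (Fin 2) ℂ).totalDegree
        ≤ 2 * m := totalDegree_finsetSum_le fun l hl => (totalDegree_pow _ _).trans (by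
      have := (totalDegree_mul (X 0 : MvPolynomial (Fin 2) ℂ) (X 1))
      simp only [totalDegree_X] at this
      have := Finset.mem_range.1 hl
      nlinarith)
    rw [totalDegree_X_pow]
    omega
  · exact (totalDegree_add _ _).trans (max_le degG.le (by simp))
  · have h : (1 + X i ^ 2 * ∑ l ∈ Finset.range (m + 1), (X 0 * X 1) ^ l) * G
        = G + X i ^ 2 - monomial (ex e) 1 := by
      rw [← hi, add_mul, mul_assoc, G, geom_sum_mul_neg]; ring
    have h2 : ∀ A B M : MvPolynomial (Fin 2) ℂ, A * G = B - M →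
        (B : MvPowerSeries (Fin 2) ℂ) * (G : MvPowerSeries (Fin 2) ℂ)⁻¹ -
          (A : MvPowerSeries (Fin 2) ℂ) = (M : MvPowerSeries (Fin 2) ℂ) * (G : MvPowerSeries (Fin 2) ℂ)⁻¹ := fun A B M h => by
      have : (B : MvPowerSeries (Fin 2) ℂ) = (A : MvPowerSeries (Fin 2) ℂ) *
          (G : MvPowerSeries (Fin 2) ℂ) + (M : MvPowerSeries (Fin 2) ℂ) := by
        rw [← coe_mul, h, ← coe_add, sub_add_cancel]
      rw [this, add_mul, mul_assoc, Ginv]; ring
    rw [h2 _ _ _ h, coe_monomial, MvPowerSeries.coeff_monomial_mul, if_neg]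
    intro c
    have c0 := c 0
    have c1 := c 1
    simp [ex] at c0 c1
    exact he (low _ _ _ _ hp c0 c1)

/-- For `f = F / G` with `F = 1` and `G = 1 - z₁ z₂` (so `ν = 2`), whatever the interpolation sets,
some sequence of approximants, with `Q_n (0) = 1`, does not even converge pointwise to `f`
at the point `(2, 2)`, where neither `G` nor any `Q_n` vanishes. -/
theorem result : G.totalDegree = 2 ∧ eval 0 G ≠ 0 ∧ eval ![2, 2] G ≠ 0 ∧
    ∀ S : ℕ → Finset (ℕ × ℕ), (∀ n, InterpSet n 2 (S n)) →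
      ∃ P Q : ℕ → MvPolynomial (Fin 2) ℂ,
        (∀ n, Approx n 2 (G : MvPowerSeries (Fin 2) ℂ)⁻¹ (S n) (P n) (Q n)) ∧
        (∀ n, eval 0 (Q n) = 1 ∧ eval ![2, 2] (Q n) ≠ 0) ∧
        ¬ Tendsto (fun n => eval ![2, 2] (P n) / eval ![2, 2] (Q n)) atTop
          (𝓝 (1 / eval ![2, 2] G)) := by
  have g : eval ![2, 2] G = -3 := by simp [G]; norm_num
  refine ⟨degG, by simp [G], by simp [g], fun S hS => ?_⟩
  have : ∀ n, ∃ P Q : MvPolynomial (Fin 2) ℂ,
      Approx n 2 (G : MvPowerSeries (Fin 2) ℂ)⁻¹ (S n) P Q ∧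
      (eval 0 Q = 1 ∧ eval ![2, 2] Q ≠ 0) ∧
      ((∃ m, n = 2 * m + 2) → 0 ≤ (eval ![2, 2] P / eval ![2, 2] Q).re) := fun n => by
    by_cases h : ∃ m, n = 2 * m + 2
    · obtain ⟨m, rfl⟩ := h
      have k : ∀ i : Fin 2, (eval 0 (G + X i ^ 2) = 1 ∧ eval ![2, 2] (G + X i ^ 2) ≠ 0) ∧
          ((∃ k, 2 * m + 2 = 2 * k + 2) → 0 ≤ (eval ![2, 2] (1 + X i ^ 2 *
            ∑ l ∈ Finset.range (m + 1), (X 0 * X 1) ^ l : MvPolynomial (Fin 2) ℂ) /
              eval ![2, 2] (G + X i ^ 2)).re) := fun i => by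
        have a : (![2, 2] : Fin 2 → ℂ) i = 2 := by fin_cases i <;> rfl
        have b : eval ![2, 2] (G + X i ^ 2) = 1 := by simp [g, a]; norm_num
        refine ⟨⟨by simp [G], by simp [b]⟩, fun _ => ?_⟩
        have : eval ![2, 2] (1 + X i ^ 2 * ∑ l ∈ Finset.range (m + 1), (X 0 * X 1) ^ l :
            MvPolynomial (Fin 2) ℂ) =
            ((1 + 2 ^ 2 * ∑ l ∈ Finset.range (m + 1), (2 * 2) ^ l : ℕ) : ℂ) := by
          simp [a]; norm_num
        rw [b, this, div_one, Complex.natCast_re]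
        positivity
      rcases miss m _ (hS _) with c | c
      · exact ⟨_, _, bad m _ 0 _ c (hS _).2.2 (by
          simp only [ex, monomial_add_single, ← X_pow_eq_monomial]; ring), k 0⟩
      · exact ⟨_, _, bad m _ 1 _ c (hS _).2.2 (by
          simp only [ex, monomial_add_single, ← X_pow_eq_monomial]; ring), k 1⟩
    · refine ⟨1, G, ⟨fun c => by simp [c] at g, by simp, degG.le, fun p _ => by simp [Ginv]⟩,
        ⟨by simp [G], by simp [g]⟩, fun c => absurd c h⟩
  choose P Q h1 h2 h3 using this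
  refine ⟨P, Q, h1, h2, fun c => ?_⟩
  have t : Tendsto (fun m : ℕ => 2 * m + 2) atTop atTop :=
    tendsto_atTop_mono (fun m => by simp only [id]; omega) tendsto_id
  have := ge_of_tendsto' ((Complex.continuous_re.tendsto _).comp (c.comp t))
    fun m => h3 _ ⟨m, rfl⟩
  rw [g] at this
  norm_num at this

end Pool.Agent.Results.MP_a75ade_an.Counter
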